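import Pool.Agent.W751.RV.Stm

/-!
# Three closed sets of pairs of coefficient vectors
-/

set_option autoImplicit false

open Polynomial Filter Topology MeasureTheory

namespace Pool.Agent.W191.RV

open Pool.Agent.W751.CD Pool.Agent.W751.CV Pool.Agent.W751.RV

lemma poly_eval {N : ℕ} (a : Fin N → ℂ) (c : ℂ) :
    (poly a).eval c = c ^ N + ∑ k : Fin N, a k * c ^ (k : ℕ) := by
  simp [poly, eval_finsetSum]

lemma poly_deriv_eval {N : ℕ} (a : Fin N → ℂ) (c : ℂ) :
    (derivative (poly a)).eval c =
      (N : ℂ) * c ^ (N - 1) + ∑ k : Fin N, a k * ((k : ℕ) * c ^ ((k : ℕ) - 1)) := by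
  simp [poly, eval_finsetSum, derivative_X_pow]

lemma den_eval {N : ℕ} (b : Fin N → ℂ) (c : ℂ) :
    (den b).eval c = 1 + ∑ k : Fin N, b k * c ^ (N - (k : ℕ)) := by
  simp [den, eval_finsetSum]

lemma den_deriv_eval {N : ℕ} (b : Fin N → ℂ) (c : ℂ) :
    (derivative (den b)).eval c =
      ∑ k : Fin N, b k * (((N - (k : ℕ) : ℕ) : ℂ) * c ^ (N - (k : ℕ) - 1)) := by
  simp [den, eval_finsetSum, derivative_X_pow]

abbrev TT (N : ℕ) : Type := ((Fin N → ℂ) × (Fin N → ℂ)) × ℂ

lemma cont1 (N : ℕ) : Continuous fun q : TT N => (poly q.1.1).eval q.2 := by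
  simp only [poly_eval]
  exact (continuous_snd.pow N).add (continuous_finsetSum _ fun k _ =>
    ((continuous_apply k).comp (continuous_fst.comp continuous_fst)).mul (continuous_snd.pow _))

lemma cont2 (N : ℕ) : Continuous fun q : TT N => (derivative (poly q.1.1)).eval q.2 := by
  simp only [poly_deriv_eval]
  exact (continuous_const.mul (continuous_snd.pow _)).add (continuous_finsetSum _ fun k _ =>
    ((continuous_apply k).comp (continuous_fst.comp continuous_fst)).mul
      (continuous_const.mul (continuous_snd.pow _)))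

lemma cont3 (N : ℕ) : Continuous fun q : TT N => (den q.1.2).eval q.2 := by
  simp only [den_eval]
  exact continuous_const.add (continuous_finsetSum _ fun k _ =>
    ((continuous_apply k).comp (continuous_snd.comp continuous_fst)).mul (continuous_snd.pow _))

lemma cont4 (N : ℕ) : Continuous fun q : TT N => (derivative (den q.1.2)).eval q.2 := by
  simp only [den_deriv_eval]
  exact continuous_finsetSum _ fun k _ =>
    ((continuous_apply k).comp (continuous_snd.comp continuous_fst)).mul
      (continuous_const.mul (continuous_snd.pow _))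

lemma closed_proj {N : ℕ} (r : ℝ) (S : Set (TT N)) (hS : IsClosed S) :
    IsClosed {a : (Fin N → ℂ) × (Fin N → ℂ) | ∃ c : ℂ, ‖c‖ ≤ r ∧ (a, c) ∈ S} := by
  have : CompactSpace (Metric.closedBall (0 : ℂ) r) :=
    isCompact_iff_compactSpace.mp (isCompact_closedBall 0 r)
  have h1 : IsClosed {q : ((Fin N → ℂ) × (Fin N → ℂ)) × (Metric.closedBall (0 : ℂ) r) |
      (q.1, (q.2 : ℂ)) ∈ S} :=
    hS.preimage (continuous_fst.prodMk (continuous_subtype_val.comp continuous_snd))
  have h2 := isClosedMap_fst_of_compactSpace _ h1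
  convert h2 using 1
  ext a
  constructor
  · rintro ⟨c, hc, h⟩
    exact ⟨(a, ⟨c, by simpa using hc⟩), h, rfl⟩
  · rintro ⟨⟨a', c, hc⟩, h, rfl⟩
    exact ⟨c, by simpa using hc, h⟩

theorem meas2 : S_MEAS2 := by
  intro N r κ
  refine ⟨?_, ?_, ?_⟩
  · exact (closed_proj r {q : TT N | κ * ‖(den q.1.2).eval q.2‖ ≤ ‖(poly q.1.1).eval q.2‖}
      (isClosed_le (continuous_const.mul (cont3 N).norm) (cont1 N).norm)).measurableSet
  · exact (closed_proj r {q : TT N | ‖(poly q.1.1).eval q.2‖ ≤ κ * ‖(den q.1.2).eval q.2‖}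
      (isClosed_le (cont1 N).norm (continuous_const.mul (cont3 N).norm))).measurableSet
  · exact (closed_proj r {q : TT N | (derivative (poly q.1.1)).eval q.2 * (den q.1.2).eval q.2 =
      (poly q.1.1).eval q.2 * (derivative (den q.1.2)).eval q.2 ∧
      ‖(poly q.1.1).eval q.2‖ ≤ κ * ‖(den q.1.2).eval q.2‖}
      ((isClosed_eq ((cont2 N).mul (cont3 N)) ((cont1 N).mul (cont4 N))).inter
        (isClosed_le (cont1 N).norm (continuous_const.mul (cont3 N).norm)))).measurableSet

end Pool.Agent.W191.RV
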